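import Mathlib
import Pool.Agent.Lib.helper23.BLD

set_option autoImplicit false

namespace Pool.Agent.Results.MP_1502ad_an.Main

open Pool.Agent.Lib.helper23.BL

theorem result : ∃ (A : Type) (_ : BanachLattice A) (J : ClosedIdeal A),
    Semiprojective J.toSub.Carrier ∧ Semiprojective (Quo J) ∧ ¬ Semiprojective A := by
  let J : ClosedIdeal (ℝ × EllOne) := fst_hom.ker
  refine ⟨ℝ × EllOne, inferInstance, J, Projective.semi ?_, Projective.semi ?_, not_semi_prod⟩
  · refine ellOne_projective.retract ((ContinuousLinearMap.snd ℝ ℝ EllOne).comp J.toSub.incl)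
      (J.toSub.cod (ContinuousLinearMap.inr ℝ ℝ EllOne) fun _ => rfl)
      (snd_hom.comp J.toSub.incl_hom)
      (J.toSub.cod_hom _ fun _ => Prod.ext abs_zero.symm rfl) (fun y => norm_snd_le y.1)
      (fun x => ?_) fun y => Subtype.ext (Prod.ext y.2.symm rfl)
    change ‖((0 : ℝ), x)‖ ≤ ‖x‖
    simp
  · refine real_projective.retract (Quo.lift J (ContinuousLinearMap.fst ℝ ℝ EllOne) fun _ h => h)
      ((Quo.mk J).comp (ContinuousLinearMap.inl ℝ ℝ EllOne)) (Quo.lift_hom J _ fst_hom)
      ((mk_hom J).comp fun _ => Prod.ext rfl (abs_of_nonneg le_rfl).symm) (fun y => ?_)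
      (fun x => (norm_mk_le J _).trans (by simp)) fun y => ?_
    · refine (ContinuousLinearMap.le_opNorm _ y).trans (mul_le_of_le_one_left (norm_nonneg _) ?_)
      exact (Quo.norm_lift _ _ _).trans (ContinuousLinearMap.norm_fst_le _ _ _)
    · obtain ⟨x, rfl⟩ := Quo.mk_surj J y
      exact (Quo.mk_eq J).2 (sub_self x.1)

end Pool.Agent.Results.MP_1502ad_an.Main
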